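import Pool.Agent.D0H84.BS.Desc
import Pool.Agent.X261.BC.Ell

/-!
Project BS, module PIC: over a field the class group of the coordinate ring of a Weierstrass curve with
`Δ ≠ 0` is a quotient of the group of points (all characteristics, no Dedekind hypothesis).
-/

set_option autoImplicit false
set_option linter.all false

open Polynomial
open scoped nonZeroDivisors

namespace Pool.Agent.D0H84.BS

section gen

variable {R : Type} [CommRing R] [IsDomain R]

theorem exists_gen {I J : Ideal R} {a : R} (ha : a ≠ 0) (hIJ : I * J = Ideal.span {a})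
    (hfin : {M : Ideal R | M.IsMaximal ∧ a ∈ M}.Finite) :
    ∃ b, Ideal.span {a} ⊔ Ideal.span {b} = I := by
  classical
  set s := hfin.toFinset with hsdef
  have hs : ∀ M, M ∈ s ↔ M.IsMaximal ∧ a ∈ M := fun M => by
    rw [hsdef, Set.Finite.mem_toFinset]; exact Iff.rfl
  have haI : a ∈ I := Ideal.mul_le_left (hIJ ▸ Ideal.mem_span_singleton_self a)
  have h1 : ∀ M ∈ s, ∃ x ∈ I, x ∉ M * I := by
    intro M hM
    by_contra hcon
    push Not at hcon
    have hle : I ≤ M * I := hcon
    have h2 : Ideal.span {a} ≤ M * Ideal.span {a} := by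
      rw [← hIJ, ← mul_assoc]
      exact Ideal.mul_mono_left hle
    have h3 : a ∈ Ideal.span {a} * M := by
      rw [mul_comm]
      exact h2 (Ideal.mem_span_singleton_self a)
    obtain ⟨z, hz, hz2⟩ := Ideal.mem_span_singleton_mul.1 h3
    have h4 : z = 1 := mul_left_cancel₀ ha (by rw [hz2, mul_one])
    exact ((hs M).1 hM).1.ne_top ((Ideal.eq_top_iff_one M).2 (h4 ▸ hz))
  choose! x hxI hxM using h1
  have h2 : ∀ M ∈ s, ∃ e, e ∉ M ∧ ∀ M' ∈ s, M' ≠ M → e ∈ M' := by
    intro M hM
    have hMp : M.IsPrime := ((hs M).1 hM).1.isPrime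
    have h3 : ¬ (∏ N ∈ s.erase M, N) ≤ M := by
      intro h4
      obtain ⟨N, hN, hNM⟩ := (hMp.prod_le).1 h4
      exact Finset.ne_of_mem_erase hN
        (((hs N).1 (Finset.mem_of_mem_erase hN)).1.eq_of_le hMp.ne_top hNM)
    obtain ⟨e, he, heM⟩ := Set.not_subset.1 h3
    refine ⟨e, heM, fun M' hM' hne => ?_⟩
    exact (Ideal.prod_le_inf.trans (Finset.inf_le (Finset.mem_erase.2 ⟨hne, hM'⟩))) he
  choose! e heM he using h2
  set b := ∑ M ∈ s, e M * x M with hb
  have hbI : b ∈ I := Submodule.sum_mem _ fun M hM => I.mul_mem_left _ (hxI M hM)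
  have hbM : ∀ M ∈ s, b ∉ M * I := by
    intro M hM hbm
    have h3 : e M * x M ∈ M * I := by
      have h4 : ∑ N ∈ s.erase M, e N * x N ∈ M * I :=
        Submodule.sum_mem _ fun N hN => Ideal.mul_mem_mul
          (he N (Finset.mem_of_mem_erase hN) M hM (Finset.ne_of_mem_erase hN).symm)
          (hxI N (Finset.mem_of_mem_erase hN))
      have h5 : e M * x M = b - ∑ N ∈ s.erase M, e N * x N := by
        rw [hb, ← Finset.add_sum_erase s _ hM]
        ring
      rw [h5]
      exact Submodule.sub_mem _ hbm h4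
    obtain ⟨y, i, hi, hy⟩ := ((hs M).1 hM).1.exists_inv (heM M hM)
    apply hxM M hM
    have h6 : x M = y * (e M * x M) + i * x M := by
      calc x M = (y * e M + i) * x M := by rw [hy, one_mul]
        _ = _ := by ring
    rw [h6]
    exact Submodule.add_mem _ (Ideal.mul_mem_left _ _ h3) (Ideal.mul_mem_mul hi (hxI M hM))
  refine ⟨b, le_antisymm (sup_le ((Ideal.span_singleton_le_iff_mem _).2 haI)
    ((Ideal.span_singleton_le_iff_mem _).2 hbI)) ?_⟩
  set K := Ideal.span {a} ⊔ Ideal.span {b} with hK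
  have haK : a ∈ K := Submodule.mem_sup_left (Ideal.mem_span_singleton_self a)
  have hbK : b ∈ K := Submodule.mem_sup_right (Ideal.mem_span_singleton_self b)
  let Q : Ideal R :=
    { carrier := {t | ∀ i ∈ I, t * i ∈ K}
      add_mem' := fun {p q} hp hq i hi => by
        rw [add_mul]; exact K.add_mem (hp i hi) (hq i hi)
      zero_mem' := fun i hi => by rw [zero_mul]; exact K.zero_mem
      smul_mem' := fun c p hp i hi => by
        rw [smul_eq_mul, mul_assoc]; exact K.mul_mem_left _ (hp i hi) }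
  have hQ : ∀ t, t ∈ Q ↔ ∀ i ∈ I, t * i ∈ K := fun t => Iff.rfl
  have hQtop : Q = ⊤ := by
    by_contra hne
    obtain ⟨M, hM, hQM⟩ := Ideal.exists_le_maximal Q hne
    have haQ : a ∈ Q := (hQ a).2 fun i _ => K.mul_mem_right _ haK
    have hMs : M ∈ s := (hs M).2 ⟨hM, hQM haQ⟩
    -- `b j = a t` with `t ∈ M`
    have h3 : ∀ j ∈ J, ∃ t ∈ M, b * j = a * t := by
      intro j hj
      have h4 : b * j ∈ Ideal.span {a} := by rw [← hIJ]; exact Ideal.mul_mem_mul hbI hj
      obtain ⟨t, ht⟩ := Ideal.mem_span_singleton.1 h4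
      refine ⟨t, hQM ((hQ t).2 fun i hi => ?_), ht⟩
      have h5 : i * j ∈ Ideal.span {a} := by rw [← hIJ]; exact Ideal.mul_mem_mul hi hj
      obtain ⟨w, hw⟩ := Ideal.mem_span_singleton.1 h5
      have h6 : t * i = b * w := by
        apply mul_left_cancel₀ ha
        calc a * (t * i) = a * t * i := by ring
          _ = b * (i * j) := by rw [← ht]; ring
          _ = _ := by rw [hw]; ring
      rw [h6]
      exact K.mul_mem_right _ hbK
    have h4 : ∀ z ∈ I * J, b * z ∈ Ideal.span {a} * (M * I) := by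
      intro z hz
      refine Submodule.mul_induction_on hz (fun i hi j hj => ?_) fun p q hp hq => ?_
      · obtain ⟨t, ht, h5⟩ := h3 j hj
        have h6 : b * (i * j) = a * (t * i) := by
          calc b * (i * j) = b * j * i := by ring
            _ = _ := by rw [h5]; ring
        rw [h6]
        exact Ideal.mul_mem_mul (Ideal.mem_span_singleton_self a) (Ideal.mul_mem_mul ht hi)
      · rw [mul_add]
        exact Submodule.add_mem _ hp hq
    obtain ⟨w, hw, hw2⟩ := Ideal.mem_span_singleton_mul.1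
      (h4 a (hIJ ▸ Ideal.mem_span_singleton_self a))
    have h5 : b = w := mul_left_cancel₀ ha (by rw [hw2, mul_comm])
    exact hbM M hMs (h5 ▸ hw)
  intro i hi
  have h3 : (1 : R) ∈ Q := hQtop ▸ Submodule.mem_top
  have h4 := (hQ 1).1 h3 i hi
  rwa [one_mul] at h4

end gen

section codim

variable {k R : Type} [Field k] [CommRing R] [IsDomain R] [Algebra k R]

theorem maxs_finite {a : R} [FiniteDimensional k (R ⧸ Ideal.span {a})] :
    {M : Ideal R | M.IsMaximal ∧ a ∈ M}.Finite := by
  haveI : IsArtinianRing (R ⧸ Ideal.span {a}) := IsArtinianRing.of_finite k _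
  refine (((IsArtinianRing.setOfPred_isMaximal_finite (R ⧸ Ideal.span {a})).image
    fun N => N.comap (Ideal.Quotient.mk (Ideal.span {a})))).subset ?_
  rintro M ⟨hM, haM⟩
  have hker : RingHom.ker (Ideal.Quotient.mk (Ideal.span {a})) ≤ M := by
    rw [Ideal.mk_ker]
    exact (Ideal.span_singleton_le_iff_mem _).2 haM
  refine ⟨M.map (Ideal.Quotient.mk (Ideal.span {a})), ?_, ?_⟩
  · haveI := hM
    exact Ideal.IsMaximal.map_of_surjective_of_ker_le Ideal.Quotient.mk_surjective hker
  · show Ideal.comap _ (Ideal.map _ M) = M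
    rw [Ideal.comap_map_of_surjective _ Ideal.Quotient.mk_surjective]
    refine sup_eq_left.2 ?_
    rwa [← RingHom.ker_eq_comap_bot]

/-- If `I J = (a)` then the codimension of `(a)` is the sum of the codimensions. -/
theorem codim_mul {I J : Ideal R} {a : R} (ha : a ≠ 0) (hIJ : I * J = Ideal.span {a})
    [FiniteDimensional k (R ⧸ Ideal.span {a})] :
    Module.finrank k (R ⧸ J) + Module.finrank k (R ⧸ I) =
      Module.finrank k (R ⧸ Ideal.span {a}) := by
  have hle : Ideal.span {a} ≤ I := hIJ ▸ Ideal.mul_le_left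
  obtain ⟨b, hb⟩ := exists_gen ha hIJ (maxs_finite (k := k))
  set mk : R →ₗ[R] (R ⧸ Ideal.span {a}) := (Ideal.span {a}).mkQ with hmk
  let φ : R →ₗ[R] (R ⧸ Ideal.span {a}) := mk.comp (LinearMap.toSpanSingleton R R b)
  have hφ : ∀ r : R, φ r = mk (r * b) := fun r => rfl
  have hker : LinearMap.ker φ = J := by
    ext r
    rw [LinearMap.mem_ker, hφ, hmk, Submodule.mkQ_apply, Submodule.Quotient.mk_eq_zero]
    constructor
    · intro h
      have h1 : ∀ i ∈ I, r * i ∈ Ideal.span {a} := by
        intro y hy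
        rw [← hb] at hy
        obtain ⟨y1, hy1, y2, hy2, rfl⟩ := Submodule.mem_sup.1 hy
        obtain ⟨y3, rfl⟩ := Ideal.mem_span_singleton'.1 hy2
        have e : r * (y1 + y3 * b) = r * y1 + y3 * (r * b) := by ring
        rw [e]
        exact add_mem (Ideal.mul_mem_left _ _ hy1) (Ideal.mul_mem_left _ _ h)
      have h2 : ∀ z ∈ I * J, r * z ∈ Ideal.span {a} * J := by
        intro z hz
        refine Submodule.mul_induction_on hz (fun i hi j hj => ?_) fun p q hp hq => ?_
        · rw [← mul_assoc]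
          exact Ideal.mul_mem_mul (h1 i hi) hj
        · rw [mul_add]
          exact Submodule.add_mem _ hp hq
      obtain ⟨w, hw, hw2⟩ := Ideal.mem_span_singleton_mul.1
        (h2 a (hIJ ▸ Ideal.mem_span_singleton_self a))
      have h3 : r = w := mul_left_cancel₀ ha (by rw [hw2, mul_comm])
      exact h3 ▸ hw
    · intro h
      rw [← hIJ, mul_comm r b]
      refine Ideal.mul_mem_mul ?_ h
      rw [← hb]
      exact Submodule.mem_sup_right (Ideal.mem_span_singleton_self b)
  let ψ : (R ⧸ Ideal.span {a}) →ₗ[R] (R ⧸ I) := Submodule.factor hle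
  have hψ : ∀ r : R, ψ (mk r) = I.mkQ r := fun r => rfl
  have hkerψ : LinearMap.ker ψ = LinearMap.range φ := by
    ext x
    obtain ⟨r, rfl⟩ := Submodule.mkQ_surjective _ x
    constructor
    · intro h
      have h1 : r ∈ I := by
        have h2 : I.mkQ r = 0 := h
        rwa [Submodule.mkQ_apply, Submodule.Quotient.mk_eq_zero] at h2
      rw [← hb] at h1
      obtain ⟨y1, hy1, y2, hy2, rfl⟩ := Submodule.mem_sup.1 h1
      obtain ⟨y3, rfl⟩ := Ideal.mem_span_singleton'.1 hy2
      refine ⟨y3, ?_⟩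
      rw [hφ]
      show mk (y3 * b) = mk (y1 + y3 * b)
      rw [map_add]
      have : mk y1 = 0 := by
        rw [hmk, Submodule.mkQ_apply, Submodule.Quotient.mk_eq_zero]
        exact hy1
      rw [this, zero_add]
    · rintro ⟨s, hs⟩
      rw [LinearMap.mem_ker, ← hs, hφ, hψ, Submodule.mkQ_apply, Submodule.Quotient.mk_eq_zero]
      refine Ideal.mul_mem_left _ _ ?_
      rw [← hb]
      exact Submodule.mem_sup_right (Ideal.mem_span_singleton_self b)
  have hsurj : Function.Surjective ψ := by
    intro x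
    obtain ⟨r, rfl⟩ := Submodule.mkQ_surjective _ x
    exact ⟨mk r, rfl⟩
  have h1 := LinearMap.finrank_range_add_finrank_ker (ψ.restrictScalars k)
  have h2 : Module.finrank k (LinearMap.range (ψ.restrictScalars k)) = Module.finrank k (R ⧸ I) := by
    rw [LinearMap.range_eq_top.2 (show Function.Surjective (ψ.restrictScalars k) from hsurj),
      finrank_top]
  have h3 : Module.finrank k (LinearMap.ker (ψ.restrictScalars k)) = Module.finrank k (R ⧸ J) := by
    have e1 : (R ⧸ J) ≃ₗ[R] LinearMap.range φ :=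
      (Submodule.quotEquivOfEq _ _ hker.symm).trans φ.quotKerEquivRange
    have e2 : LinearMap.range φ ≃ₗ[R] LinearMap.ker ψ := LinearEquiv.ofEq _ _ hkerψ.symm
    exact ((e1.trans e2).restrictScalars k).finrank_eq.symm
  rw [h2, h3] at h1
  omega

end codim

section surj

open WeierstrassCurve.Affine WeierstrassCurve.Affine.CoordinateRing
open scoped Classical

variable {k : Type} [Field k] {W : WeierstrassCurve.Affine k}

/-- The class group of the coordinate ring is the group of points. -/
theorem toClass_surj (hns0 : ∀ x y : k, W.Equation x y → W.Nonsingular x y) :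
    Function.Surjective (Point.toClass (W := W)) := by
  suffices hs : ∀ c : ClassGroup W.CoordinateRing, ∃ P : W.Point,
      Point.toClass P = Additive.ofMul c from fun c0 => hs c0.toMul
  intro c
  obtain ⟨u, I, hu, hI⟩ := class_repr c⁻¹
  obtain ⟨J', c', hc', hIJ'⟩ := inv_ideal hI
  have hI0 : I ≠ ⊥ := by
    rintro rfl
    rw [Ideal.bot_mul] at hIJ'
    exact hc' (Ideal.span_singleton_eq_bot.1 hIJ'.symm)
  haveI := Pool.Agent.X261.BC.finite_quot (W := W) hI0
  obtain ⟨a, haI, ha0, hdeg⟩ := Pool.Agent.X261.BC.exists_small (k := k) I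
  -- the complementary ideal
  have hle : Ideal.span {a} * J' ≤ Ideal.span {c'} := by
    rw [← hIJ']
    exact Ideal.mul_mono_left ((Ideal.span_singleton_le_iff_mem _).2 haI)
  obtain ⟨J, hJ, -⟩ := exists_div hle
  have hIJ : I * J = Ideal.span {a} := by
    refine (Ideal.span_singleton_mul_right_inj hc').1 ?_
    calc Ideal.span {c'} * (I * J) = I * (Ideal.span {c'} * J) := by ring
      _ = Ideal.span {a} * (I * J') := by rw [hJ]; ring
      _ = _ := by rw [hIJ', mul_comm]
  have hsp : Ideal.span {a} ≠ (⊥ : Ideal W.CoordinateRing) :=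
    fun h0 => ha0 (Ideal.span_singleton_eq_bot.1 h0)
  haveI := Pool.Agent.X261.BC.finite_quot (W := W) hsp
  have h1 := codim_mul (k := k) ha0 hIJ
  rw [finrank_quotient_span_eq_natDegree_norm (CoordinateRing.basis W) ha0] at h1
  have hJ1 : Module.finrank k (W.CoordinateRing ⧸ J) ≤ 1 := by omega
  have hJ0 : J ≠ ⊥ := by
    rintro rfl
    rw [Ideal.mul_bot] at hIJ
    exact hsp hIJ.symm
  haveI := Pool.Agent.X261.BC.finite_quot (W := W) hJ0
  rcases Nat.lt_or_ge (Module.finrank k (W.CoordinateRing ⧸ J)) 1 with h | h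
  · -- the unit ideal
    have h3 : Subsingleton (W.CoordinateRing ⧸ J) :=
      Module.finrank_zero_iff.1 (by omega : Module.finrank k (W.CoordinateRing ⧸ J) = 0)
    have h4 : J = ⊤ := Ideal.Quotient.subsingleton_iff.1 h3
    refine ⟨0, ?_⟩
    have h5 : c⁻¹ = 1 := by
      rw [← hu, ClassGroup.mk_eq_one_of_coe_ideal hI]
      exact ⟨a, ha0, by rw [← hIJ, h4, Ideal.mul_top]⟩
    rw [map_zero, inv_eq_one.1 h5]
    rfl
  · obtain ⟨x, y, heq, hJe⟩ := Pool.Agent.X261.BC.point_of_codim (W := W) (J := J) (by omega)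
    have hns : W.Nonsingular x y := hns0 x y heq
    refine ⟨Point.some _ _ hns, ?_⟩
    rw [Point.toClass_some]
    have h5 : ((u * XYIdeal' hns : (FractionalIdeal W.CoordinateRing⁰ W.FunctionField)ˣ) :
        FractionalIdeal W.CoordinateRing⁰ W.FunctionField) = (Ideal.span {a} : Ideal _) := by
      rw [Units.val_mul, hI, XYIdeal'_eq, ← hJe, ← FractionalIdeal.coeIdeal_mul, hIJ]
    have h6 : ClassGroup.mk W.FunctionField (u * XYIdeal' hns) = 1 :=
      (ClassGroup.mk_eq_one_of_coe_ideal h5).2 ⟨a, ha0, rfl⟩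
    rw [map_mul, hu, inv_mul_eq_one] at h6
    rw [← h6]
    rfl

/-- the class group is finite if the group of points is -/
theorem finite_of_points (hns0 : ∀ x y : k, W.Equation x y → W.Nonsingular x y)
    (h : Finite W.Point) : Finite (ClassGroup W.CoordinateRing) :=
  Finite.of_surjective (fun P : W.Point => (Point.toClass P).toMul) fun c => by
    obtain ⟨P, hP⟩ := toClass_surj hns0 (Additive.ofMul c)
    exact ⟨P, by show (Point.toClass P).toMul = c; rw [hP]; rfl⟩

end surj

end Pool.Agent.D0H84.BS
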