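import Pool.Agent.D0H69.BS.Stm
import Pool.Agent.D0H84.BS.Fld

/-!
Project BS, module PIC.
-/

set_option autoImplicit false
set_option linter.all false

open Polynomial
open scoped nonZeroDivisors Classical

namespace Pool.Agent.D0H84.BS

open WeierstrassCurve.Affine WeierstrassCurve.Affine.CoordinateRing

section crd

variable {R S : Type} [CommRing R] [CommRing S] (W : WeierstrassCurve.Affine R)

theorem map_alg (f : R →+* S) (r : R) :
    CoordinateRing.map W f (algebraMap R W.CoordinateRing r) =
      algebraMap S (W.map f).CoordinateRing (f r) := by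
  show CoordinateRing.map W f (mk W (C (C r))) = mk (W.map f) (C (C (f r)))
  rw [map_mk, map_C, coe_mapRingHom, map_C]

theorem map_pq (f : R →+* S) (p q : R[X]) :
    CoordinateRing.map W f (p • (1 : W.CoordinateRing) + q • mk W X) =
      p.map f • (1 : (W.map f).CoordinateRing) + q.map f • mk (W.map f) X := by
  rw [map_add, CoordinateRing.map_smul, CoordinateRing.map_smul, map_one, map_mk, map_X]

/-- a prime of `R` is prime in the coordinate ring -/
theorem prime_alg [IsDomain R] {π : R} (hπ : Prime π) : Prime (algebraMap R W.CoordinateRing π) := by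
  have hinj : Function.Injective (algebraMap R W.CoordinateRing) := FaithfulSMul.algebraMap_injective _ _
  set f : R →+* R ⧸ Ideal.span {π} := Ideal.Quotient.mk _ with hf
  haveI : (Ideal.span {π}).IsPrime := (Ideal.span_singleton_prime hπ.ne_zero).2 hπ
  haveI : IsDomain (R ⧸ Ideal.span {π}) := Ideal.Quotient.isDomain _
  have hf0 : ∀ r : R, f r = 0 ↔ π ∣ r := fun r => by
    rw [hf, Ideal.Quotient.eq_zero_iff_mem, Ideal.mem_span_singleton]
  have hpol : ∀ p : R[X], p.map f = 0 → ∃ p', p = C π * p' := by
    intro p hp
    have h1 : C π ∣ p := by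
      rw [C_dvd_iff_dvd_coeff]
      intro i
      rw [← hf0, ← coeff_map, hp, coeff_zero]
    exact h1
  have hker : ∀ x : W.CoordinateRing, CoordinateRing.map W f x = 0 →
      algebraMap R W.CoordinateRing π ∣ x := by
    intro x hx
    obtain ⟨p, q, rfl⟩ := exists_smul_basis_eq x
    rw [map_pq] at hx
    obtain ⟨h1, h2⟩ := smul_basis_eq_zero hx
    obtain ⟨p', rfl⟩ := hpol p h1
    obtain ⟨q', rfl⟩ := hpol q h2
    refine ⟨p' • (1 : W.CoordinateRing) + q' • mk W X, ?_⟩
    show _ = mk W (C (C π)) * _
    simp only [smul, C_mul, map_mul]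
    ring
  have hzero : CoordinateRing.map W f (algebraMap R W.CoordinateRing π) = 0 := by
    rw [map_alg, (hf0 π).2 dvd_rfl, map_zero]
  refine ⟨fun h => hπ.ne_zero (hinj (by rw [h, map_zero])), fun h => ?_, fun a b hab => ?_⟩
  · have h1 := h.map (CoordinateRing.map W f)
    rw [hzero] at h1
    exact not_isUnit_zero h1
  · obtain ⟨c, hc⟩ := hab
    have h1 : CoordinateRing.map W f a * CoordinateRing.map W f b = 0 := by
      rw [← map_mul, hc, map_mul, hzero, zero_mul]
    rcases mul_eq_zero.1 h1 with h | h
    · exact Or.inl (hker a h)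
    · exact Or.inr (hker b h)

end crd

/-- a common denominator of a polynomial -/
theorem exists_den {R F : Type} [CommRing R] [IsDomain R] [Field F] [Algebra R F] [IsFractionRing R F]
    (p : F[X]) : ∃ r : R, r ≠ 0 ∧ ∃ p' : R[X], p'.map (algebraMap R F) = C (algebraMap R F r) * p := by
  obtain ⟨b, hb⟩ := IsLocalization.integerNormalization_map_to_map R⁰ p
  refine ⟨b, nonZeroDivisors.coe_ne_zero b, IsLocalization.integerNormalization R⁰ p, ?_⟩
  rw [hb, Algebra.smul_def (b : R) p]
  rfl

theorem pic : Pool.Agent.D0H69.BS.S_PIC := by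
  intro R F _ _ _ _ _ _ W hΔ hfin
  refine ⟨inferInstance, ?_⟩
  have hF : Function.Injective (algebraMap R F) := IsFractionRing.injective R F
  letI : Algebra W.toAffine.CoordinateRing (W.toAffine.map (algebraMap R F)).CoordinateRing :=
    (CoordinateRing.map W.toAffine (algebraMap R F)).toAlgebra
  have hmap : ∀ x, algebraMap W.toAffine.CoordinateRing (W.toAffine.map (algebraMap R F)).CoordinateRing x =
      CoordinateRing.map W.toAffine (algebraMap R F) x := fun x => rfl
  have hunit : ∀ r : R, r ≠ 0 → IsUnit (CoordinateRing.map W.toAffine (algebraMap R F)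
      (algebraMap R W.toAffine.CoordinateRing r)) := by
    intro r hr
    rw [map_alg]
    exact (IsUnit.mk0 _ fun h0 => hr (hF (by rw [h0, map_zero]))).map _
  haveI : IsNoetherianRing W.toAffine.CoordinateRing := by
    haveI : Module.Finite R[X] W.toAffine.CoordinateRing :=
      Module.Finite.of_basis (CoordinateRing.basis W.toAffine)
    exact IsNoetherianRing.of_finite R[X] _
  have hS : Setup R W.toAffine.CoordinateRing (W.toAffine.map (algebraMap R F)).CoordinateRing :=
    { hp := fun π hπ => prime_alg W.toAffine hπ
      hR := FaithfulSMul.algebraMap_injective _ _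
      hA := CoordinateRing.map_injective hF
      loc := by
        intro b
        obtain ⟨p, q, rfl⟩ := exists_smul_basis_eq b
        obtain ⟨r, hr, p', hp'⟩ := exists_den (R := R) p
        obtain ⟨s, hs, q', hq'⟩ := exists_den (R := R) q
        refine ⟨r * s, mul_ne_zero hr hs, (C s * p') • (1 : W.toAffine.CoordinateRing) +
          (C r * q') • mk W.toAffine X, ?_⟩
        rw [hmap, hmap, map_pq, map_alg, Polynomial.map_mul, Polynomial.map_mul, hp', hq', map_C,
          map_C, map_mul]
        show mk (W.toAffine.map (algebraMap R F)) (C (C (algebraMap R F r * algebraMap R F s))) * _ = _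
        simp only [smul, C_mul, map_mul]
        ring
      unit := hunit }
  refine finite_class hS (finite_of_points (W := W.toAffine.map (algebraMap R F)) (fun x y hxy => ?_) hfin)
  refine ((W.toAffine.map (algebraMap R F)).equation_iff_nonsingular_of_Δ_ne_zero ?_).1 hxy
  show (W.map (algebraMap R F)).Δ ≠ 0
  rw [WeierstrassCurve.map_Δ]
  exact fun h0 => hΔ (hF (by rw [h0, map_zero]))

end Pool.Agent.D0H84.BS
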