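import Mathlib

/-!
Project BS, module PIC: descent of principality along `A → B = A ⊗ Frac R`, when the primes of the principal
ideal domain `R` stay prime in `A`.
-/

set_option autoImplicit false
set_option linter.all false

open scoped nonZeroDivisors

namespace Pool.Agent.D0H84.BS

section repr

variable {A : Type} [CommRing A] [IsDomain A]

theorem class_repr (c : ClassGroup A) :
    ∃ (u : (FractionalIdeal A⁰ (FractionRing A))ˣ) (I : Ideal A),
      ClassGroup.mk (FractionRing A) u = c ∧ (u : FractionalIdeal A⁰ (FractionRing A)) = I := by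
  refine ClassGroup.induction (FractionRing A) (P := fun c =>
    ∃ (u : (FractionalIdeal A⁰ (FractionRing A))ˣ) (I : Ideal A),
      ClassGroup.mk (FractionRing A) u = c ∧ (u : FractionalIdeal A⁰ (FractionRing A)) = I) ?_ c
  intro u
  obtain ⟨a, I, ha, h⟩ :=
    FractionalIdeal.exists_eq_spanSingleton_mul (u : FractionalIdeal A⁰ (FractionRing A))
  have ha' : algebraMap A (FractionRing A) a ≠ 0 := by
    rwa [Ne, IsFractionRing.to_map_eq_zero_iff]
  refine ⟨u * toPrincipalIdeal A (FractionRing A) (Units.mk0 _ ha'), I, ?_, ?_⟩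
  · exact ((ClassGroup.mk_eq_mk).2 ⟨_, rfl⟩).symm
  · rw [Units.val_mul, coe_toPrincipalIdeal, h, Units.val_mk0, mul_right_comm,
      FractionalIdeal.spanSingleton_mul_spanSingleton, inv_mul_cancel₀ ha',
      FractionalIdeal.spanSingleton_one, one_mul]

theorem inv_ideal {u : (FractionalIdeal A⁰ (FractionRing A))ˣ} {I : Ideal A}
    (h : (u : FractionalIdeal A⁰ (FractionRing A)) = I) :
    ∃ (J : Ideal A) (c : A), c ≠ 0 ∧ I * J = Ideal.span {c} := by
  obtain ⟨a, J, ha, hJ⟩ := FractionalIdeal.exists_eq_spanSingleton_mul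
    ((u⁻¹ : (FractionalIdeal A⁰ (FractionRing A))ˣ) : FractionalIdeal A⁰ (FractionRing A))
  refine ⟨J, a, ha, ?_⟩
  have ha' : algebraMap A (FractionRing A) a ≠ 0 := by
    rwa [Ne, IsFractionRing.to_map_eq_zero_iff]
  have h1 : (u : FractionalIdeal A⁰ (FractionRing A)) *
      ((u⁻¹ : (FractionalIdeal A⁰ (FractionRing A))ˣ) : FractionalIdeal A⁰ (FractionRing A)) = 1 :=
    u.mul_inv
  rw [hJ, h] at h1
  have h2 : ((I * J : Ideal A) : FractionalIdeal A⁰ (FractionRing A)) = (Ideal.span {a} : Ideal A) := by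
    rw [FractionalIdeal.coeIdeal_mul, FractionalIdeal.coeIdeal_span_singleton]
    calc (I : FractionalIdeal A⁰ (FractionRing A)) * J
        = FractionalIdeal.spanSingleton A⁰ (algebraMap A (FractionRing A) a) *
          (I * (FractionalIdeal.spanSingleton A⁰ (algebraMap A (FractionRing A) a)⁻¹ * J)) := by
          have e : FractionalIdeal.spanSingleton A⁰ (algebraMap A (FractionRing A) a) *
            FractionalIdeal.spanSingleton A⁰ (algebraMap A (FractionRing A) a)⁻¹ = 1 := by
            rw [FractionalIdeal.spanSingleton_mul_spanSingleton, mul_inv_cancel₀ ha',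
              FractionalIdeal.spanSingleton_one]
          calc (I : FractionalIdeal A⁰ (FractionRing A)) * J = 1 * (I * J) := (one_mul _).symm
            _ = _ := by rw [← e]; ring
      _ = _ := by rw [h1, mul_one]
  exact FractionalIdeal.coeIdeal_injective h2

theorem exists_div {p : A} {K : Ideal A} (h : K ≤ Ideal.span {p}) :
    ∃ K' : Ideal A, Ideal.span {p} * K' = K ∧ ∀ x, p * x ∈ K → x ∈ K' := by
  refine ⟨Submodule.comap (LinearMap.mulLeft A p) K, ?_, fun x hx => hx⟩
  ext x
  rw [Ideal.mem_span_singleton_mul]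
  constructor
  · rintro ⟨z, hz, rfl⟩
    exact hz
  · intro hx
    obtain ⟨z, rfl⟩ := Ideal.mem_span_singleton.1 (h hx)
    exact ⟨z, hx, rfl⟩

end repr

section desc

variable {R A : Type} [CommRing R] [IsDomain R] [IsPrincipalIdealRing R] [CommRing A] [IsDomain A]
  [Algebra R A]

theorem dvd_of_not_le (hp : ∀ π : R, Prime π → Prime (algebraMap R A π)) {I : Ideal A} {c : A}
    (hc : c ≠ 0) {j : A} (hj : ∀ i ∈ I, c ∣ j * i) (d : R) : d ≠ 0 →
    (∀ π : R, Prime π → π ∣ d → ¬ I ≤ Ideal.span {algebraMap R A π}) →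
    c ∣ algebraMap R A d * j → c ∣ j := by
  induction d using UniqueFactorizationMonoid.induction_on_prime with
  | h₁ => intro h; exact absurd rfl h
  | h₂ x hx =>
    intro _ _ h
    exact ((hx.map (algebraMap R A)).dvd_mul_left).1 h
  | h₃ a p ha hpr ih =>
    intro _ hI h
    refine ih ha (fun π h1 h2 => hI π h1 (h2.mul_left p)) ?_
    obtain ⟨i, hi, hip⟩ := Set.not_subset.1 (hI p hpr (Dvd.intro _ rfl))
    obtain ⟨x, hx⟩ := h
    obtain ⟨y, hy⟩ := hj i hi
    rw [map_mul] at hx
    have h1 : x * i = algebraMap R A p * (algebraMap R A a * y) := by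
      apply mul_left_cancel₀ hc
      calc c * (x * i) = c * x * i := by ring
        _ = algebraMap R A p * algebraMap R A a * (j * i) := by rw [← hx]; ring
        _ = _ := by rw [hy]; ring
    have h2 : algebraMap R A p ∣ x := by
      rcases (hp p hpr).dvd_or_dvd (Dvd.intro _ h1.symm) with h | h
      · exact h
      · exact absurd (Ideal.mem_span_singleton.2 h) hip
    obtain ⟨x', rfl⟩ := h2
    refine ⟨x', ?_⟩
    apply mul_left_cancel₀ (hp p hpr).ne_zero
    linear_combination hx

theorem princ (hp : ∀ π : R, Prime π → Prime (algebraMap R A π)) (r : R) : r ≠ 0 →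
    ∀ (I J : Ideal A) (c : A), c ≠ 0 → I * J = Ideal.span {c} → algebraMap R A r ∈ I →
      ∃ g, I = Ideal.span {g} := by
  induction r using (wellFounded_dvdNotUnit (α := R)).induction with
  | _ r ih =>
  intro hr I J c hc hIJ hrI
  by_cases hex : ∃ π : R, Prime π ∧ π ∣ r ∧ I ≤ Ideal.span {algebraMap R A π}
  · obtain ⟨π, hπ, ⟨r', rfl⟩, hle⟩ := hex
    obtain ⟨I', hI', hI2⟩ := exists_div hle
    have hr' : r' ≠ 0 := right_ne_zero_of_mul hr
    obtain ⟨g, hg⟩ := ih r' ⟨hr', π, hπ.not_unit, mul_comm _ _⟩ hr' I'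
      (Ideal.span {algebraMap R A π} * J) c hc (by rw [← hIJ, ← hI']; ring)
      (hI2 _ (by rw [← map_mul]; exact hrI))
    exact ⟨algebraMap R A π * g, by rw [← hI', hg, Ideal.span_singleton_mul_span_singleton]⟩
  · push Not at hex
    have hJ : J ≤ Ideal.span {c} := by
      intro j hj
      refine Ideal.mem_span_singleton.2 (dvd_of_not_le hp hc (I := I) ?_ r hr hex ?_)
      · intro i hi
        rw [← Ideal.mem_span_singleton, ← hIJ, mul_comm j i]
        exact Ideal.mul_mem_mul hi hj
      · rw [← Ideal.mem_span_singleton, ← hIJ]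
        exact Ideal.mul_mem_mul hrI hj
    refine ⟨1, ?_⟩
    rw [Ideal.span_singleton_one, Ideal.eq_top_iff_one]
    have h1 : c ∈ Ideal.span {c} * I := by
      have h2 : c ∈ I * J := by rw [hIJ]; exact Ideal.mem_span_singleton_self c
      rw [mul_comm]
      exact Ideal.mul_mono_right hJ h2
    obtain ⟨z, hz, hz2⟩ := Ideal.mem_span_singleton_mul.1 h1
    have h3 : z = 1 := mul_left_cancel₀ hc (by rw [hz2, mul_one])
    rwa [h3] at hz

end desc

section inj

variable (R A B : Type) [CommRing R] [IsDomain R] [IsPrincipalIdealRing R] [CommRing A] [IsDomain A]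
  [IsNoetherianRing A] [CommRing B] [IsDomain B] [Algebra R A] [Algebra A B]

/-- the primes of `R` stay prime in `A`, and `B` is the localization of `A` at the nonzero elements of `R` -/
structure Setup : Prop where
  hp : ∀ π : R, Prime π → Prime (algebraMap R A π)
  hR : Function.Injective (algebraMap R A)
  hA : Function.Injective (algebraMap A B)
  loc : ∀ b : B, ∃ r : R, r ≠ 0 ∧ ∃ a : A, algebraMap A B (algebraMap R A r) * b = algebraMap A B a
  unit : ∀ r : R, r ≠ 0 → IsUnit (algebraMap A B (algebraMap R A r))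

variable {R A B}

theorem map_mem (hS : Setup R A B) {I : Ideal A} {y : B} (hy : y ∈ I.map (algebraMap A B)) :
    ∃ r : R, r ≠ 0 ∧ ∃ i ∈ I, algebraMap A B (algebraMap R A r) * y = algebraMap A B i := by
  refine Submodule.span_induction (p := fun y _ => ∃ r : R, r ≠ 0 ∧ ∃ i ∈ I,
    algebraMap A B (algebraMap R A r) * y = algebraMap A B i) ?_ ?_ ?_ ?_ hy
  · rintro _ ⟨i, hi, rfl⟩
    exact ⟨1, one_ne_zero, i, hi, by rw [map_one, map_one, one_mul]⟩
  · exact ⟨1, one_ne_zero, 0, I.zero_mem, by rw [map_zero, mul_zero]⟩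
  · rintro x y _ _ ⟨r, hr, i, hi, h1⟩ ⟨s, hs, j, hj, h2⟩
    refine ⟨r * s, mul_ne_zero hr hs, algebraMap R A s * i + algebraMap R A r * j,
      I.add_mem (I.mul_mem_left _ hi) (I.mul_mem_left _ hj), ?_⟩
    simp only [map_mul, map_add]
    rw [← h1, ← h2]
    ring
  · rintro b x _ ⟨r, hr, i, hi, h1⟩
    obtain ⟨s, hs, a, ha⟩ := hS.loc b
    refine ⟨s * r, mul_ne_zero hs hr, a * i, I.mul_mem_left _ hi, ?_⟩
    simp only [map_mul, smul_eq_mul]
    rw [← h1, ← ha]
    ring

theorem princ_of_map (hS : Setup R A B) {I J : Ideal A} {c d : A} (hc : c ≠ 0)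
    (hIJ : I * J = Ideal.span {c}) (hd : d ≠ 0)
    (h : I.map (algebraMap A B) = Ideal.span {algebraMap A B d}) : ∃ g, I = Ideal.span {g} := by
  -- a uniform denominator
  have h1 : ∀ x ∈ I, ∃ r : R, r ≠ 0 ∧ d ∣ algebraMap R A r * x := by
    intro x hx
    have h2 : algebraMap A B x ∈ Ideal.span {algebraMap A B d} := h ▸ Ideal.mem_map_of_mem _ hx
    obtain ⟨b, hb⟩ := Ideal.mem_span_singleton.1 h2
    obtain ⟨r, hr, a, ha⟩ := hS.loc b
    refine ⟨r, hr, a, hS.hA ?_⟩
    rw [map_mul, map_mul, hb, ← ha]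
    ring
  have h2 : ∀ s : Finset A, (∀ x ∈ s, x ∈ I) → ∃ r : R, r ≠ 0 ∧ ∀ x ∈ s, d ∣ algebraMap R A r * x := by
    classical
    intro s
    induction s using Finset.induction_on with
    | empty => intro _; exact ⟨1, one_ne_zero, fun x hx => absurd hx (Finset.notMem_empty x)⟩
    | insert a s has ih =>
      intro hs
      obtain ⟨r, hr, h3⟩ := ih fun x hx => hs x (Finset.mem_insert_of_mem hx)
      obtain ⟨t, ht, h4⟩ := h1 a (hs a (Finset.mem_insert_self a s))
      refine ⟨r * t, mul_ne_zero hr ht, fun x hx => ?_⟩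
      rcases Finset.mem_insert.1 hx with rfl | hx
      · rw [map_mul, mul_assoc]
        exact h4.mul_left _
      · rw [map_mul, mul_right_comm]
        exact (h3 x hx).mul_right _
  obtain ⟨s, hs⟩ := (isNoetherianRing_iff_ideal_fg A).1 inferInstance I
  obtain ⟨r, hr, h3⟩ := h2 s fun x hx => by rw [← hs]; exact Submodule.subset_span hx
  have hr' : algebraMap R A r ≠ 0 := fun h0 => hr (hS.hR (by rw [h0, map_zero]))
  have h4 : Ideal.span {algebraMap R A r} * I ≤ Ideal.span {d} := by
    intro y hy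
    obtain ⟨x, hx, rfl⟩ := Ideal.mem_span_singleton_mul.1 hy
    have h5 : I ≤ Submodule.comap (LinearMap.mulLeft A (algebraMap R A r)) (Ideal.span {d}) := by
      rw [← hs]
      refine Submodule.span_le.2 fun x hx => ?_
      exact Ideal.mem_span_singleton.2 (h3 x hx)
    exact h5 hx
  obtain ⟨K, hK, hK2⟩ := exists_div h4
  obtain ⟨r2, hr2, i, hi, h5⟩ := map_mem hS (I := I) (y := algebraMap A B d)
    (by rw [h]; exact Ideal.mem_span_singleton_self _)
  have h6 : algebraMap R A r2 * d = i := hS.hA (by rw [map_mul, h5])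
  have h7 : algebraMap R A (r * r2) ∈ K := by
    refine hK2 _ (Ideal.mem_span_singleton_mul.2 ⟨i, hi, ?_⟩)
    rw [← h6, map_mul]
    ring
  obtain ⟨g, hg⟩ := princ hS.hp (r * r2) (mul_ne_zero hr hr2) K (Ideal.span {d} * J)
    (algebraMap R A r * c) (mul_ne_zero hr' hc) (by
      rw [← Ideal.span_singleton_mul_span_singleton, ← hIJ, ← mul_assoc, ← mul_assoc, ← hK]
      ring) h7
  have h8 : d * g ∈ Ideal.span {algebraMap R A r} * I := by
    rw [← hK, hg, Ideal.span_singleton_mul_span_singleton]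
    exact Ideal.mem_span_singleton_self _
  obtain ⟨x, hx, hx2⟩ := Ideal.mem_span_singleton_mul.1 h8
  refine ⟨x, (Ideal.span_singleton_mul_right_inj hr').1 ?_⟩
  rw [← hK, hg, Ideal.span_singleton_mul_span_singleton, Ideal.span_singleton_mul_span_singleton,
    hx2]

theorem finite_class (hS : Setup R A B) (hfin : Finite (ClassGroup B)) : Finite (ClassGroup A) := by
  haveI : FaithfulSMul A B := (faithfulSMul_iff_algebraMap_injective A B).2 hS.hA
  haveI : Module.IsTorsionFree A B := inferInstance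
  let E : FractionalIdeal A⁰ (FractionRing A) →+* FractionalIdeal B⁰ (FractionRing B) :=
    FractionalIdeal.extendedHom (FractionRing B) B
  let ψ : (FractionalIdeal A⁰ (FractionRing A))ˣ →* ClassGroup B :=
    (ClassGroup.mk (FractionRing B)).comp (Units.map E.toMonoidHom)
  have hker : ∀ u, ψ u = 1 → ClassGroup.mk (FractionRing A) u = 1 := by
    intro u hu
    obtain ⟨a, I, ha, h⟩ :=
      FractionalIdeal.exists_eq_spanSingleton_mul (u : FractionalIdeal A⁰ (FractionRing A))
    have ha' : algebraMap A (FractionRing A) a ≠ 0 := by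
      rwa [Ne, IsFractionRing.to_map_eq_zero_iff]
    have hb : algebraMap A B a ≠ 0 := fun h0 => ha (hS.hA (by rw [h0, map_zero]))
    have hb' : algebraMap B (FractionRing B) (algebraMap A B a) ≠ 0 := by
      rwa [Ne, IsFractionRing.to_map_eq_zero_iff]
    set u₀ := u * toPrincipalIdeal A (FractionRing A) (Units.mk0 _ ha') with hu₀
    have hu1 : (u₀ : FractionalIdeal A⁰ (FractionRing A)) = I := by
      rw [hu₀, Units.val_mul, coe_toPrincipalIdeal, h, Units.val_mk0, mul_right_comm,
        FractionalIdeal.spanSingleton_mul_spanSingleton, inv_mul_cancel₀ ha',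
        FractionalIdeal.spanSingleton_one, one_mul]
    have hu2 : ClassGroup.mk (FractionRing A) u₀ = ClassGroup.mk (FractionRing A) u :=
      ((ClassGroup.mk_eq_mk).2 ⟨_, rfl⟩).symm
    obtain ⟨J, c, hc, hIJ⟩ := inv_ideal hu1
    -- the extension
    have hv1 : ((Units.map E.toMonoidHom u₀ : (FractionalIdeal B⁰ (FractionRing B))ˣ) :
        FractionalIdeal B⁰ (FractionRing B)) = (I.map (algebraMap A B) : Ideal B) := by
      show E (u₀ : FractionalIdeal A⁰ (FractionRing A)) = _
      rw [hu1]
      exact FractionalIdeal.extendedHom_coeIdeal_eq_map (FractionRing B) B I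
    have hv2 : ClassGroup.mk (FractionRing B) (Units.map E.toMonoidHom u₀) = 1 := by
      have e1 : Units.map E.toMonoidHom u₀ = Units.map E.toMonoidHom u *
          toPrincipalIdeal B (FractionRing B) (Units.mk0 _ hb') := by
        rw [hu₀, map_mul]
        congr 1
        apply Units.ext
        rw [coe_toPrincipalIdeal, Units.val_mk0]
        show E ((toPrincipalIdeal A (FractionRing A)) (Units.mk0 _ ha') :
          FractionalIdeal A⁰ (FractionRing A)) = _
        rw [coe_toPrincipalIdeal, Units.val_mk0]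
        refine (FractionalIdeal.extendedHom_spanSingleton (FractionRing B) B _).trans ?_
        congr 1
        exact IsLocalization.map_eq _ _
      rw [e1, ← (ClassGroup.mk_eq_mk).2 ⟨_, rfl⟩]
      exact hu
    obtain ⟨x, hx, hx2⟩ := (ClassGroup.mk_eq_one_of_coe_ideal hv1).1 hv2
    obtain ⟨r, hr, d, hd⟩ := hS.loc x
    have hru := hS.unit r hr
    have h3 : I.map (algebraMap A B) = Ideal.span {algebraMap A B d} := by
      rw [hx2, ← hd]
      exact (Ideal.span_singleton_mul_left_unit hru x).symm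
    have hd0 : d ≠ 0 := by
      rintro rfl
      rw [map_zero] at hd
      exact mul_ne_zero hru.ne_zero hx hd
    obtain ⟨g, hg⟩ := princ_of_map hS hc hIJ hd0 h3
    rw [← hu2, ClassGroup.mk_eq_one_of_coe_ideal hu1]
    refine ⟨g, ?_, hg⟩
    rintro rfl
    have : I = ⊥ := by rw [hg]; exact Ideal.span_singleton_eq_bot.2 rfl
    rw [this, Ideal.bot_mul] at hIJ
    exact hc (Ideal.span_singleton_eq_bot.1 hIJ.symm)
  let f : ψ.range → ClassGroup A := fun b => ClassGroup.mk (FractionRing A) (Classical.choose b.2)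
  refine Finite.of_surjective f fun c => ?_
  refine ClassGroup.induction (FractionRing A) (P := fun c => ∃ a, f a = c) ?_ c
  intro u
  refine ⟨⟨ψ u, u, rfl⟩, ?_⟩
  have h1 : ψ (Classical.choose (⟨ψ u, u, rfl⟩ : ψ.range).2) = ψ u :=
    Classical.choose_spec (⟨ψ u, u, rfl⟩ : ψ.range).2
  have h2 := hker (Classical.choose (⟨ψ u, u, rfl⟩ : ψ.range).2 * u⁻¹)
    (by rw [map_mul, h1, map_inv, mul_inv_cancel])
  rw [map_mul, map_inv, mul_inv_eq_one] at h2
  exact h2

end inj

end Pool.Agent.D0H84.BS
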